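import Pool.Agent.U583.CF.Main

/-!
# Geometric flat bundles and cubic families without coefficients

Let `Y` be a variety of dimension `d` over the field of algebraic numbers and `K` its function field, an
infinite algebraic extension of `ℚ(t_1, …, t_d)`. We consider the category `𝒜` of flat bundles on dense
open subsets of `Y`; the cohomology of the fibres gives objects `H^n_c(X)` and `H^n(X)` of `𝒜` for the
schemes `X` over `K`, and a simple object is geometric if it is a subquotient of `H^n(X)` for a proper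
smooth `X`.

An elementary polynomial is one of the forms `x_i - 1`, `x_i - t_j`, `x_i + x_j - x_k`, `x_i x_j - x_k`.
The equation `∑ y_l g_l(x) = 1` for elementary polynomials `g_0, …, g_m` is a family of affine cubic
hypersurfaces over `ℤ[t_1, …, t_d]`.

1. The cubic hypersurfaces over `K` are smooth, of dimension `N + m`.
2. For every separated scheme `X` of finite type over `K` and every bound `n₀` there is one such family
such that all simple constituents of `H^n_c(X)`, `n ≤ n₀`, are constituents of its cohomology.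
3. Irreducible flat bundles `A_1, …, A_r` are all geometric if and only if there is one such family with
all `A_s` being constituents of its cohomology with compact support.
4. The same for the cohomology without supports.

So for all varieties `Y` of dimension `d` at once it is enough to consider one explicit countable list of
families.
-/

set_option autoImplicit false

open CategoryTheory CategoryTheory.Limits AlgebraicGeometry MvPolynomial
open Pool.Agent.Y116.UV Pool.Agent.U583.ON Pool.Agent.U583.CF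

universe v u

namespace Pool.Agent.Results.MP_e3793a_ag.CubicFamilies

/-- The scheme `Y` over `K` is the hypersurface `∑ y_l g_l(x) = 1` for polynomials `g_0, …, g_m` in
`x_1, …, x_N`, each of one of the forms `x_i - 1`, `x_i - t_j`, `x_i + x_j - x_k`, `x_i x_j - x_k`. -/
def IsCubicFamily (d : ℕ) (K : Type) [Field K] [Algebra (RatFun d) K] (Y : Sch K) : Prop :=
  ∃ (N m : ℕ) (g : Fin (m + 1) → MvPolynomial (Fin N) (RatFun d)),
    (∀ l, IsElementary (ts d) (g l)) ∧ Y = cubF K g

theorem result (d : ℕ) (K : Type) [Field K] [Algebra (RatFun d) K]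
    [Algebra.IsAlgebraic (RatFun d) K] :
    -- smoothness
    (∀ (N m : ℕ) (g : Fin (m + 1) → MvPolynomial (Fin N) (RatFun d)),
      FT True (cubF K g) ∧ SmoothOfRelativeDimension (m + N) (cubF K g).hom) ∧
    -- one family for the constituents of the cohomology of `X`, for all theories
    (∀ X : Sch K, FT True X → ∀ n₀ : ℤ, ∃ (N m : ℕ)
      (g : Fin (m + 1) → MvPolynomial (Fin N) (RatFun d)), (∀ l, IsElementary (ts d) (g l)) ∧
        ∀ {𝒜 : Type u} [Category.{v} 𝒜] [Abelian 𝒜] (H : Coh 𝒜 K), IsAdditive H →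
          ∀ n : ℤ, n ≤ n₀ → ∀ A : 𝒜, Simple A → IsSubquotient A (H.H n X) →
            IsSubquotient (tpow H.T m A) (H.H (n + 1 + 2 * m) (cubF K g))) ∧
    ∀ {𝒜 : Type u} [Category.{v} 𝒜] [Abelian 𝒜] (H : Coh 𝒜 K), IsAdditive H →
      WeightSpectral H → (∀ A : 𝒜, Nonempty (H.T.obj A ≅ A)) →
      -- cohomology with compact support
      (∀ (r : ℕ) (A : Fin r → 𝒜), (∀ s, Simple (A s)) →
        ((∀ s, Effective H (A s)) ↔
          ∃ Y, IsCubicFamily d K Y ∧ ∀ s, ∃ j : ℤ, IsSubquotient (A s) (H.H j Y))) ∧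
      -- cohomology without supports
      ∀ O : Ordinary H, Compares O → ∀ (r : ℕ) (A : Fin r → 𝒜), (∀ s, Simple (A s)) →
        ((∀ s, Effective H (A s)) ↔
          ∃ Y, IsCubicFamily d K Y ∧ ∀ s, ∃ j : ℤ, IsSubquotient (A s) (O.Hu j Y)) := by
  refine ⟨fun N m g => ⟨ft_cubS _, smooth_cubS _⟩, fun X hX n₀ => ?_,
    fun {𝒜} _ _ H hadd hw hT => ⟨fun r A hA => ⟨fun h => ?_, ?_⟩,
      fun O hO r A hA => ⟨fun h => ?_, ?_⟩⟩⟩
  · exact exists_cubK.{v, u} (closure_ts d) X hX n₀
  · obtain ⟨N, m, g, hg, hs⟩ := effective_list (closure_ts d) hadd A hA h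
    refine ⟨cubF K g, ⟨N, m, g, hg, rfl⟩, fun s => ?_⟩
    obtain ⟨j, hj⟩ := hs s
    exact ⟨j, hj.iso_left ⟨(tpow_trivial hT m (A s)).some.symm⟩⟩
  · rintro ⟨Y, ⟨N, m, g, -, rfl⟩, hs⟩ s
    obtain ⟨j, hj⟩ := hs s
    exact hw _ j (A s) (ft_cubS _) (hA s) hj
  · have hgeo : ∀ s, Geometric O (FT True) (A s) := by
      intro s
      obtain ⟨X, i, hX, hs⟩ := h s
      exact ⟨X, hX.ft, i, 0, 0, hs.iso_right ⟨(hO.proper i X hX.1).some.symm⟩⟩
    obtain ⟨N, m, g, hg, hs⟩ := geometric_list (closure_ts d) hadd O A hA hgeo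
    refine ⟨cubF K g, ⟨N, m, g, hg, rfl⟩, fun s => ?_⟩
    obtain ⟨j, hj⟩ := hs s
    exact ⟨j, occurs_trivial hT hj⟩
  · rintro ⟨Y, ⟨N, m, g, -, rfl⟩, hs⟩ s
    obtain ⟨j, hj⟩ := hs s
    exact hO.weights _ j (A s) (ft_cubS _) (hA s) hj

end Pool.Agent.Results.MP_e3793a_ag.CubicFamilies
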