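import Pool.Agent.U419.UG.RigG

/-!
# Flat bundles on fibrations with congruent irreducible monodromy on the fibres

Let `Y → B` be a fibration (a smooth morphism with connected fibres, topologically locally trivial) with
fibre `C`, `G = π₁(Y)` and `N` the image of `π₁(C)` in `G`, a normal subgroup with `G / N = π₁(B)`. Let
`A ⊆ ℂ` be a noetherian local ring (for instance the local ring of the integers of a number
field at a maximal ideal) with residue field `κ`, and let `V₁`, `V₂` be flat bundles on `Y` with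
monodromy representations `ρ₁`, `ρ₂` of rank `n ≥ 1` over `A`. Suppose that the reductions of `ρ₁` and
`ρ₂` are isomorphic and absolutely irreducible on the fibre, and that `H ^ 1 (N, ad (ρ₁ ⊗ κ))` has no
nonzero vector fixed by `G`. Then `V₂ ≅ V₁ ⊗ θ` for a flat bundle `θ` of rank one which
comes from `B`. If the `V_i` are quasi-geometric, then so is `θ`, and `θ` has finite order (the
question is known in rank one); so `V₁` is geometric if and only if `V₂` is geometric.

If `κ` is finite, then there are, up to such twists, only finitely many `ρ` of rank `n` over `A`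
with these two properties (residually absolutely irreducible on the fibre, no fixed classes).
-/

set_option autoImplicit false

open IsLocalRing

namespace Pool.Agent.Results.MP_e3793a_ag.FibreReductions

/-- the reduction of `ρ`, with values in the matrices over the residue field -/
noncomputable def reduction {G : Type} [Group G] {A : Type} [CommRing A] [IsLocalRing A] {n : ℕ}
    (ρ : G →* GL (Fin n) A) : G →* GL (Fin n) (ResidueField A) :=
  (Matrix.GeneralLinearGroup.map (residue A)).comp ρ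

/-- The representation `r` is absolutely irreducible on `N`: its values there span all matrices (by
Burnside's theorem). -/
def IrreducibleOn {G : Type} [Group G] (N : Subgroup G) {κ : Type} [Field κ] {n : ℕ}
    (r : G →* GL (Fin n) κ) : Prop :=
  Submodule.span κ (Set.range fun g : N => (r g : Matrix (Fin n) (Fin n) κ)) = ⊤

/-- `r₁` and `r₂` are isomorphic on `N`. -/
def IsomorphicOn {G : Type} [Group G] (N : Subgroup G) {B : Type} [CommRing B] {n : ℕ}
    (r₁ r₂ : G →* GL (Fin n) B) : Prop :=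
  ∃ X : GL (Fin n) B, ∀ g ∈ N, r₂ g = X * r₁ g * X⁻¹

/-- the adjoint action: `M ↦ r(g) M r(g)⁻¹` -/
noncomputable def ad {G : Type} [Group G] {κ : Type} [Field κ] {n : ℕ}
    (r : G →* GL (Fin n) κ) (g : G) (M : Matrix (Fin n) (Fin n) κ) :
    Matrix (Fin n) (Fin n) κ :=
  (r g).1 * M * (r g)⁻¹.1

/-- `b` is a cocycle on `N` with values in the matrices (with the adjoint action). -/
def IsCocycle {G : Type} [Group G] (N : Subgroup G) {κ : Type} [Field κ] {n : ℕ}
    (r : G →* GL (Fin n) κ) (b : N → Matrix (Fin n) (Fin n) κ) : Prop :=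
  ∀ g h : N, b (g * h) = b g + ad r g (b h)

/-- `b` is a coboundary. -/
def IsCoboundary {G : Type} [Group G] (N : Subgroup G) {κ : Type} [Field κ] {n : ℕ}
    (r : G →* GL (Fin n) κ) (b : N → Matrix (Fin n) (Fin n) κ) : Prop :=
  ∃ x : Matrix (Fin n) (Fin n) κ, ∀ g : N, b g = x - ad r g x

/-- The class of the cocycle `b` is fixed by `σ`: the cocycle `g ↦ ad(σ)⁻¹ b(σ g σ⁻¹)` is equal to `b`
up to a coboundary. -/
def IsFixed {G : Type} [Group G] (N : Subgroup G) {κ : Type} [Field κ] {n : ℕ}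
    (r : G →* GL (Fin n) κ) (σ : G) (b : N → Matrix (Fin n) (Fin n) κ) : Prop :=
  ∃ y : Matrix (Fin n) (Fin n) κ, ∀ g h : N, (h : G) = σ * g * σ⁻¹ →
    b h = ad r σ (b g + y - ad r g y)

/-- `H ^ 1 (N, ad r)` has no nonzero vector which is fixed by all `σ` in `G`. -/
def NoFixedClass {G : Type} [Group G] (N : Subgroup G) {κ : Type} [Field κ] {n : ℕ}
    (r : G →* GL (Fin n) κ) : Prop :=
  ∀ b : N → Matrix (Fin n) (Fin n) κ, IsCocycle N r b → (∀ σ : G, IsFixed N r σ b) →
    IsCoboundary N r b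

/-- The reduction of `ρ` is absolutely irreducible on `N`, and `G` has no nonzero fixed vector in
`H ^ 1 (N, ad)` of the reduction. -/
def Good {G : Type} [Group G] (N : Subgroup G) {A : Type} [CommRing A] [IsLocalRing A] {n : ℕ}
    (ρ : G →* GL (Fin n) A) : Prop :=
  IrreducibleOn N (reduction ρ) ∧ NoFixedClass N (reduction ρ)

/-- `ρ₂` is isomorphic to `ρ₁ ⊗ θ` for a character `θ` with values in the units of `A`, trivial on
`N`. -/
def IsTwist {G : Type} [Group G] (N : Subgroup G) {A : Type} [CommRing A] {n : ℕ}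
    (ρ₁ ρ₂ : G →* GL (Fin n) A) : Prop :=
  ∃ (Y : GL (Fin n) A) (θ : G →* Aˣ), (∀ g ∈ N, θ g = 1) ∧
    ∀ g, (ρ₂ g : Matrix (Fin n) (Fin n) A) =
      (θ g : A) • ((Y * ρ₁ g * Y⁻¹ : GL (Fin n) A) : Matrix (Fin n) (Fin n) A)

theorem unique {G : Type} [Group G] (N : Subgroup G) [hN : N.Normal] {A : Type} [CommRing A]
    [IsLocalRing A] [IsNoetherianRing A] {n : ℕ} (hn : 0 < n) (ρ₁ ρ₂ : G →* GL (Fin n) A)
    (h₁ : Good N ρ₁) (hiso : IsomorphicOn N (reduction ρ₁) (reduction ρ₂)) : IsTwist N ρ₁ ρ₂ := by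
  obtain ⟨hirr, hσ⟩ := h₁
  let _ : TopologicalSpace G := ⊥
  have _ : DiscreteTopology G := ⟨rfl⟩
  -- lift the isomorphism of the reductions
  obtain ⟨X₀, hX₀⟩ := hiso
  obtain ⟨M, hM⟩ := Pool.Agent.U419.UG.exists_lift (A := A) (X₀ : Matrix (Fin n) (Fin n) _)
  have hMu : IsUnit M := by
    rw [Matrix.isUnit_iff_isUnit_det]
    by_contra hcon
    have h1 : residue A M.det = 0 := (residue_eq_zero_iff _).2 ((mem_maximalIdeal _).2 hcon)
    rw [RingHom.map_det] at h1
    have h2 : (residue A).mapMatrix M = (X₀ : Matrix (Fin n) (Fin n) _) := hM.symm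
    rw [h2] at h1
    exact ((Matrix.isUnit_iff_isUnit_det _).1 X₀.isUnit).ne_zero h1
  let W : GL (Fin n) A := hMu.unit
  have hW : Matrix.GeneralLinearGroup.map (residue A) W = X₀ := by
    apply Units.ext
    exact hM.symm
  let ρ₃ : G →* GL (Fin n) A := (MulAut.conj W⁻¹).toMonoidHom.comp ρ₂
  have hρ₃ : ∀ g, ρ₃ g = W⁻¹ * ρ₂ g * W := fun g => by
    change W⁻¹ * ρ₂ g * W⁻¹⁻¹ = _
    rw [inv_inv]
  have hcong : ∀ g : N, Pool.Agent.U419.UG.bar (ρ₃ g) = Pool.Agent.U419.UG.bar (ρ₁ g) := by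
    intro g
    have h1 := hX₀ g g.2
    have h2 : Matrix.GeneralLinearGroup.map (residue A) (ρ₃ g) =
        Matrix.GeneralLinearGroup.map (residue A) (ρ₁ g) := by
      rw [hρ₃, map_mul, map_mul, map_inv, hW]
      have h3 : Matrix.GeneralLinearGroup.map (residue A) (ρ₂ g) =
          X₀ * Matrix.GeneralLinearGroup.map (residue A) (ρ₁ g) * X₀⁻¹ := h1
      rw [h3]
      group
    exact congrArg Units.val h2
  obtain ⟨Y, θ, hθ, hY⟩ := Pool.Agent.U419.UG.unique_fix (H := N) hn (∅ : Set G)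
    ρ₁ ρ₃ (fun k => isOpen_discrete _) (fun k => isOpen_discrete _) (fun τ hτ => hτ.elim)
    (fun τ hτ => hτ.elim) hirr (by
      rintro ⟨b, hb1, hb2, hb3, hb4, hb5⟩
      exact hb5 (hσ b hb1 hb4)) hcong
  have hfin : ∀ g, (ρ₂ g : Matrix (Fin n) (Fin n) A) =
      (θ g : A) • ((W * Y * ρ₁ g * (W * Y)⁻¹ : GL (Fin n) A) : Matrix (Fin n) (Fin n) A) := by
    intro g
    have h1 : ρ₂ g = W * ρ₃ g * W⁻¹ := by rw [hρ₃]; group
    have h2 : W * Y * ρ₁ g * (W * Y)⁻¹ = W * (Y * ρ₁ g * Y⁻¹) * W⁻¹ := by group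
    rw [h1, h2, Units.val_mul (W * ρ₃ g), Units.val_mul W, hY, mul_smul_comm, smul_mul_assoc,
      Units.val_mul (W * (Y * ρ₁ g * Y⁻¹)), Units.val_mul W]
  exact ⟨W * Y, θ, fun g hg => hθ ⟨g, hg⟩, hfin⟩

theorem result (G : Type) [Group G] (N : Subgroup G) [N.Normal] (A : Type) [CommRing A]
    [IsLocalRing A] [IsNoetherianRing A] (n : ℕ) (hn : 0 < n) :
    (∀ ρ₁ ρ₂ : G →* GL (Fin n) A, Good N ρ₁ → IsomorphicOn N (reduction ρ₁) (reduction ρ₂) →
      IsTwist N ρ₁ ρ₂) ∧
    (Finite (ResidueField A) → Group.FG N → ∃ F : Set (G →* GL (Fin n) A), F.Finite ∧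
      ∀ ρ, Good N ρ → ∃ ρ₀ ∈ F, IsTwist N ρ₀ ρ) := by
  classical
  refine ⟨fun ρ₁ ρ₂ h₁ h₂ => unique N hn ρ₁ ρ₂ h₁ h₂, fun hκ hfg => ?_⟩
  obtain ⟨S, hS⟩ := hfg.out
  have hfin : Finite (N →* GL (Fin n) (ResidueField A)) := by
    have : Finite (GL (Fin n) (ResidueField A)) := inferInstance
    refine Finite.of_injective (fun (f : N →* GL (Fin n) (ResidueField A)) (s : S) => f s) ?_
    intro f g hfg
    refine MonoidHom.eq_of_eqOn_dense hS ?_
    intro s hs
    exact congrFun hfg ⟨s, hs⟩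
  let res : (G →* GL (Fin n) A) → (N →* GL (Fin n) (ResidueField A)) := fun ρ =>
    (reduction ρ).comp N.subtype
  let pick : (N →* GL (Fin n) (ResidueField A)) → (G →* GL (Fin n) A) := fun r =>
    if h : ∃ ρ, Good N ρ ∧ res ρ = r then h.choose else 1
  refine ⟨Set.range pick, Set.finite_range _, fun ρ hρ => ⟨pick (res ρ), ⟨_, rfl⟩, ?_⟩⟩
  have hex : ∃ ρ', Good N ρ' ∧ res ρ' = res ρ := ⟨ρ, hρ, rfl⟩
  have hp : pick (res ρ) = hex.choose := dif_pos hex
  obtain ⟨h1, h2⟩ := hex.choose_spec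
  rw [← hp] at h1 h2
  refine unique N hn _ ρ h1 ⟨1, fun g hg => ?_⟩
  rw [one_mul, inv_one, mul_one]
  have h3 := congrArg (fun f : N →* GL (Fin n) (ResidueField A) => f ⟨g, hg⟩) h2
  exact h3.symm

end Pool.Agent.Results.MP_e3793a_ag.FibreReductions
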