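import Pool.Agent.U419.UG.Rig

/-!
# Flat bundles of small rank which are trivial modulo a prime on the fibres

Let `Y → B` be a fibration with fibre `C`, `G = π₁(Y)` and `N` the image of `π₁(C)` in `G`, a normal
subgroup with `G / N = π₁(B)`. Let `A` be a noetherian local ring (for instance the local ring of the
integers of a number field at a maximal ideal, a subring of `ℂ`) with residue field `κ`. Suppose
that for every nonzero homomorphism `χ` from `N` to `κ` the conjugates of `χ` under `G` span a space of
dimension greater than `n ^ 2` over `κ`. Then every representation of `G` of rank `n` over `A` whose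
reduction is trivial on `N` is trivial on `N`: the flat bundle comes from `B`.

For instance, if the monodromy of the family of curves `Y → B` of genus `g` on `H ^ 1 (C, κ)` is irreducible
over `κ` (the universal curve, all its finite coverings with large monodromy modulo the prime), then this
applies to all `n` with `n ^ 2 < 2 g`.
-/

set_option autoImplicit false

open IsLocalRing

namespace Pool.Agent.Results.MP_e3793a_ag.SmallRankFibres

/-- `χ` is a homomorphism from `N` to the additive group of `κ`. -/
def IsHom {G : Type} [Group G] (N : Subgroup G) {κ : Type} [Field κ] (χ : N → κ) : Prop :=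
  ∀ g h : N, χ (g * h) = χ g + χ h

/-- the space spanned by the conjugates `g ↦ χ (σ g σ⁻¹)` of `χ`, `σ` in `G` -/
def conjugates {G : Type} [Group G] (N : Subgroup G) {κ : Type} [Field κ] (χ : N → κ) :
    Submodule κ (N → κ) :=
  Submodule.span κ {ψ | ∃ σ : G, ∀ g h : N, (h : G) = σ * g * σ⁻¹ → ψ g = χ h}

/-- For every nonzero homomorphism `χ` from `N` to `κ`, the space spanned by the conjugates of `χ` has
(finite) dimension greater than `d`. -/
def LargeOrbits {G : Type} [Group G] (N : Subgroup G) (κ : Type) [Field κ] (d : ℕ) : Prop :=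
  ∀ χ : N → κ, IsHom N χ → (∃ g, χ g ≠ 0) → d < Module.finrank κ (conjugates N χ)

/-- The reduction of `ρ` is trivial on `N`. -/
def TrivialReduction {G : Type} [Group G] (N : Subgroup G) {A : Type} [CommRing A] [IsLocalRing A]
    {n : ℕ} (ρ : G →* GL (Fin n) A) : Prop :=
  ∀ g ∈ N, Matrix.GeneralLinearGroup.map (residue A) (ρ g) = 1

open Pool.Agent.U419.UG in
theorem triv_step {G : Type} [Group G] (N : Subgroup G) {A : Type} [CommRing A] [IsLocalRing A]
    {n : ℕ} (ρ : G →* GL (Fin n) A)
    (hH : ∀ b : N → Matrix (Fin n) (Fin n) (ResidueField A), (∀ g h, b (g * h) = b g + b h) →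
      (∀ (σ : G) (g h : N), (h : G) = σ * g * σ⁻¹ →
        b h = bar (ρ σ) * b g * bar (ρ σ)⁻¹) → ∀ g, b g = 0)
    (J : Ideal A) (e : A) (he : ∀ a ∈ maximalIdeal A, a * e ∈ J) (hem : e ∈ maximalIdeal A)
    (heJ : e ∉ J) (h : ∀ g : N, RJ (J ⊔ Ideal.span {e}) n (ρ g) = 1) :
    ∀ g : N, RJ J n (ρ g) = 1 := by
  choose β hβ using fun g : N => exists_eta J e he hem (M := ρ g) (M' := 1)
    (by rw [h g, map_one])
  have hβ' : ∀ g : N, RJ J n (ρ g) = eta J e he hem (Multiplicative.ofAdd (β g)) := fun g => by
    rw [hβ g, map_one, mul_one]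
  have h0 : ∀ g, β g = 0 := by
    refine hH β (fun g h => ?_) (fun σ g h hgh => ?_)
    · apply eta_inj J e he hem heJ
      rw [← hβ' (g * h)]
      have h1 : RJ J n (ρ ↑(g * h)) = RJ J n (ρ g) * RJ J n (ρ h) := by
        rw [← map_mul, ← map_mul]
        rfl
      rw [h1, hβ' g, hβ' h, ← map_mul]
      rfl
    · apply eta_inj J e he hem heJ
      have h1 := eta_conj J e he hem (ρ σ) (β g)
      rw [← hβ' h, hgh, map_mul, map_mul, map_inv, map_mul, map_mul, map_inv, hβ' g]
      exact h1
  intro g
  rw [hβ' g, h0 g]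
  exact map_one (eta J e he hem)

open Pool.Agent.U419.UG in
theorem triv_all {G : Type} [Group G] (N : Subgroup G) {A : Type} [CommRing A] [IsLocalRing A]
    [IsNoetherianRing A] {n : ℕ} (ρ : G →* GL (Fin n) A)
    (hH : ∀ b : N → Matrix (Fin n) (Fin n) (ResidueField A), (∀ g h, b (g * h) = b g + b h) →
      (∀ (σ : G) (g h : N), (h : G) = σ * g * σ⁻¹ →
        b h = bar (ρ σ) * b g * bar (ρ σ)⁻¹) → ∀ g, b g = 0)
    (h1 : ∀ g : N, bar (ρ g) = 1) (k : ℕ) (J : Ideal A) :
    maximalIdeal A ^ k ≤ J → J ≤ maximalIdeal A → ∀ g : N, RJ J n (ρ g) = 1 := by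
  induction J using IsNoetherian.induction with
  | hgt J ih =>
    intro hkJ hJm
    by_cases hJ : J = maximalIdeal A
    · intro g
      rw [← map_one (RJ J n), RJ_eq_iff]
      intro i j
      rw [hJ, ← residue_eq_zero_iff, map_sub, sub_eq_zero]
      have h2 := congrFun (congrFun (h1 g) i) j
      change residue A ((ρ g : Matrix (Fin n) (Fin n) A) i j) = _ at h2
      rw [h2, Units.val_one, Matrix.one_apply, Matrix.one_apply]
      split_ifs
      · rw [map_one]
      · rw [map_zero]
    · classical
      have hex : ∃ i, maximalIdeal A ^ i ≤ J := ⟨k, hkJ⟩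
      have hi := Nat.find_spec hex
      have hi2 : 2 ≤ Nat.find hex := by
        by_contra hcon
        have h1 : Nat.find hex = 0 ∨ Nat.find hex = 1 := by omega
        rcases h1 with h1 | h1
        · rw [h1, pow_zero, Ideal.one_eq_top] at hi
          exact (IsLocalRing.maximalIdeal.isMaximal A).ne_top (top_le_iff.1 (hi.trans hJm))
        · rw [h1, pow_one] at hi
          exact hJ (le_antisymm hJm hi)
      have hlt : ¬ maximalIdeal A ^ (Nat.find hex - 1) ≤ J := Nat.find_min hex (by omega)
      obtain ⟨e, hei, heJ⟩ := SetLike.not_le_iff_exists.1 hlt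
      have hem : e ∈ maximalIdeal A := by
        have h1 : maximalIdeal A ^ (Nat.find hex - 1) ≤ maximalIdeal A ^ 1 :=
          Ideal.pow_le_pow_right (by omega)
        rw [pow_one] at h1
        exact h1 hei
      have he : ∀ a ∈ maximalIdeal A, a * e ∈ J := by
        intro a ha
        apply hi
        have h1 := Ideal.mul_mem_mul ha hei
        rw [← pow_succ'] at h1
        rwa [Nat.sub_add_cancel (by omega)] at h1
      have hJlt : J ⊔ Ideal.span {e} > J := by
        refine lt_of_le_of_ne le_sup_left ?_
        intro h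
        apply heJ
        rw [h]
        exact Ideal.mem_sup_right (Ideal.mem_span_singleton_self e)
      have h3 := ih _ hJlt (hkJ.trans le_sup_left)
        (sup_le hJm ((Ideal.span_singleton_le_iff_mem _).2 hem))
      exact triv_step N ρ hH J e he hem heJ h3

open Pool.Agent.U419.UG in
theorem result (G : Type) [Group G] (N : Subgroup G) [hN : N.Normal] (A : Type) [CommRing A]
    [IsLocalRing A] [IsNoetherianRing A] (n : ℕ)
    (hd : LargeOrbits N (ResidueField A) (n ^ 2)) (ρ : G →* GL (Fin n) A)
    (hρ : TrivialReduction N ρ) : ∀ g ∈ N, ρ g = 1 := by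
  classical
  have hH : ∀ b : N → Matrix (Fin n) (Fin n) (ResidueField A), (∀ g h, b (g * h) = b g + b h) →
      (∀ (σ : G) (g h : N), (h : G) = σ * g * σ⁻¹ →
        b h = bar (ρ σ) * b g * bar (ρ σ)⁻¹) → ∀ g, b g = 0 := by
    intro b hb1 hb2 g₀
    by_contra hcon
    obtain ⟨i, j, hij⟩ : ∃ i j, b g₀ i j ≠ 0 := by
      by_contra hc
      push Not at hc
      apply hcon
      ext i j
      exact hc i j
    have h1 := hd (fun g => b g i j) (fun g h => congrFun (congrFun (hb1 g h) i) j) ⟨g₀, hij⟩
    let f : Fin n × Fin n → (N → ResidueField A) := fun p g => b g p.1 p.2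
    have hle : conjugates N (fun g => b g i j) ≤ Submodule.span (ResidueField A) (Set.range f) := by
      unfold conjugates
      rw [Submodule.span_le]
      rintro ψ ⟨σ, hψ⟩
      have hψ' : ψ = ∑ l, ∑ k, (bar (ρ σ) i k * bar (ρ σ)⁻¹ l j) • f (k, l) := by
        funext g
        have h2 := hψ g ⟨σ * g * σ⁻¹, hN.conj_mem g g.2 σ⟩ rfl
        rw [h2]
        change b ⟨σ * g * σ⁻¹, hN.conj_mem g g.2 σ⟩ i j = _
        rw [hb2 σ g _ rfl, Matrix.mul_apply, Finset.sum_apply]
        refine Finset.sum_congr rfl fun l _ => ?_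
        rw [Matrix.mul_apply, Finset.sum_mul, Finset.sum_apply]
        refine Finset.sum_congr rfl fun k _ => ?_
        change bar (ρ σ) i k * b g k l * bar (ρ σ)⁻¹ l j =
          bar (ρ σ) i k * bar (ρ σ)⁻¹ l j * b g k l
        ring
      rw [hψ']
      exact Submodule.sum_mem _ fun l _ => Submodule.sum_mem _ fun k _ =>
        Submodule.smul_mem _ _ (Submodule.subset_span ⟨(k, l), rfl⟩)
    have hfd : FiniteDimensional (ResidueField A)
        (Submodule.span (ResidueField A) (Set.range f)) :=
      FiniteDimensional.span_of_finite _ (Set.finite_range f)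
    have h2 := Submodule.finrank_mono hle
    have h3 := finrank_range_le_card (R := ResidueField A) f
    rw [Set.finrank, Fintype.card_prod, Fintype.card_fin] at h3
    rw [sq] at h1
    omega
  have hbar : ∀ g : N, bar (ρ g) = 1 := fun g => congrArg Units.val (hρ g g.2)
  intro g hg
  apply eq_of_Rk
  intro k
  rw [map_one]
  have h1 := triv_all N ρ hH hbar (k + 1) (maximalIdeal A ^ (k + 1)) le_rfl (by
    conv_rhs => rw [← pow_one (maximalIdeal A)]
    exact Ideal.pow_le_pow_right (by omega)) ⟨g, hg⟩
  have h2 : RJ (maximalIdeal A ^ (k + 1)) n (ρ g) = RJ (maximalIdeal A ^ (k + 1)) n 1 := by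
    rw [map_one]
    exact h1
  have h3 := RJ_mono (Ideal.pow_le_pow_right (by omega : k ≤ k + 1)) h2
  rw [map_one] at h3
  exact h3

end Pool.Agent.Results.MP_e3793a_ag.SmallRankFibres
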