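import Pool.Agent.U644.QG.Core

/-!
# Geometricity of semisimple quasi-geometric flat bundles: test spaces

`Q n` is Q1 for all spaces `Y` of dimension `n`, `QIrr Y` is Q1 for the irreducible bundles on `Y` and
`QUni Y` for the irreducible bundles with unipotent local monodromy.

1. `Q n` is equivalent to `QIrr V` for the dense open subsets `V` of the affine space of dimension `n`.
2. `Q 1` is equivalent to `QIrr` for one space, the projective line without three points, and to
   `QIrr` for the moduli stack of elliptic curves.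
3. `Q 1` is equivalent to `QUni` for the modular curves `Y(2N)`.
4. `Q n` implies `Q m` for `m ≤ n`; so Q1 in general is equivalent to Q1 in infinitely many dimensions.
-/

namespace Pool.Agent.Results.MP_e3793a_ag.TestSpaces

open Pool.Agent.U644.QG

universe u v w

/-- **Theorem.** -/
theorem result (T : FlatTheory.{u, v, w}) :
    (∀ n : ℕ, T.Q n ↔ ∀ V : T.Sp, T.AffOpen V → T.dim V = n → T.QIrr V) ∧
    (T.Q 1 ↔ T.QIrr T.P3) ∧ (T.Q 1 ↔ T.QIrr T.M11) ∧ (T.Q 1 ↔ ∀ N : ℕ, T.QUni (T.mod N)) ∧
    (∀ m n : ℕ, m ≤ n → T.Q n → T.Q m) ∧ ((∀ n, T.Q n) ↔ ∀ n, ∃ m, n ≤ m ∧ T.Q m) :=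
  ⟨q_iff_affOpen, q_one_iff_P3, q_one_iff_M11, q_one_iff_modular, fun _ _ h hn => q_of_le h hn,
    q_all_iff⟩

end Pool.Agent.Results.MP_e3793a_ag.TestSpaces
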